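import Pool.Agent.Work.MP_fe3720_an.NR.Final
import Pool.Agent.Work.MP_fe3720_an.NR.NoRR4
import Pool.Agent.Work.MP_fe3720_an.NF.Main
import Pool.Agent.Work.MP_fe3720_an.X.MainAB

/-! # A Stein manifold with the density property which is not an RR-space

There is a connected holomorphically convex open set `Ω` in `ℂ²` which has the density property and
on which no nonzero complete holomorphic vector field has a nonconstant holomorphic first integral:
`Ω` does not satisfy (RR4), and is not an RR-space. (A holomorphically convex open subset of `ℂ²` is a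
Stein manifold: the coordinates separate its points.) All notions are defined in
`Pool/Agent/Work/MP_fe3720_an/NR/Problem.lean`. -/

namespace Pool.Agent.Results.MP_fe3720_an.Counterexample

open Pool.Agent.MP_fe3720

theorem result : ∃ Ω : Set (ℂ × ℂ), IsOpen Ω ∧ IsConnected Ω ∧ Dom.HolomorphicallyConvex Ω ∧
    Dom.DensityProperty Ω ∧ ¬ Dom.RR4 Ω ∧ ¬ Dom.IsRR Ω := by
  obtain ⟨Ω, hO, hC, hconv, hD, hF, hH⟩ := X.exists_domain
  have h4 : ¬ Dom.RR4 Ω := NR.no_RR4 hO hC hF hH (fun u U hU hu x hx => NF.osg hU hu x hx)
    (fun f V w h => NF.main h)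
  exact ⟨Ω, hO, hC, NR.holConvex_of hconv, NR.density_of hD, h4,
    fun ⟨T, _, _, _, _, h⟩ => h4 h⟩

end Pool.Agent.Results.MP_fe3720_an.Counterexample
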