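import Pool.Agent.Work.MP_fe3720_an.B.MainS

/-! # The density property and (RR4) imply that a Stein manifold is an RR-space

`Z` is any connected Stein manifold of pure dimension `d`, realised as a closed complex submanifold
of some `ℂ^N` given by global holomorphic equations; `hol Z` is the algebra of the holomorphic
functions on `Z`. If `Z` has the density property and there is a nonzero complete holomorphic vector
field on `Z` with a nonconstant first integral (the axiom (RR4) of RR-spaces), then `Z` is an
RR-space, in both readings of the axiom (RR2): with `n ≥ 0`, and with `n ≥ 1`. -/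

namespace Pool.Agent.Results.MP_fe3720_an.DensityImpliesRR

open Pool.Agent.MP_fe3720

theorem result {N d : ℕ} (Z : Set (Fin N → ℂ)) (hZ : IsSteinSubmanifold N d Z)
    (hconn : IsConnected Z) (h4 : DensityRR.RR4 (hol Z))
    (hDP : DensityRR.DensityProperty (hol Z)) :
    DensityRR.IsRR (hol Z) ∧ DensityRR.IsRRPos (hol Z) :=
  BB.mainR' hZ hconn h4 hDP

end Pool.Agent.Results.MP_fe3720_an.DensityImpliesRR
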