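import Pool.Agent.Work.MP_fe3720_an.B.MainS

/-! # The density property and RR-spaces: Stein manifolds with a slice

`Z` is any connected Stein manifold of dimension `d ≥ 2`, realised as a closed complex submanifold
of some `ℂ^N` given by global holomorphic equations; `hol Z` is the algebra of the holomorphic
functions on `Z`. Suppose that there are a complete holomorphic vector field `v` and a holomorphic
function `s` on `Z` with `v s ≠ 0` and `v (v s) = 0`. Then `Z` has the density property if and only if
`Z` is an RR-space, where `n ≥ 1` in the axiom (RR2); and if and only if `Z` is an RR-space,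
where `n ≥ 0` in (RR2), and the complete holomorphic vector fields have no common zero. -/

namespace Pool.Agent.Results.MP_fe3720_an.SliceCriterion

open Pool.Agent.MP_fe3720

theorem result {N d : ℕ} (hd : 2 ≤ d) (Z : Set (Fin N → ℂ)) (hZ : IsSteinSubmanifold N d Z)
    (hconn : IsConnected Z) (hs : DensityRR.HasSlice (hol Z)) :
    (DensityRR.DensityProperty (hol Z) ↔ DensityRR.IsRRPos (hol Z)) ∧
      (DensityRR.DensityProperty (hol Z) ↔
        DensityRR.IsRR (hol Z) ∧ DensityRR.NoCommonZero (hol Z)) :=
  BB.mainS hZ hconn hd hs

end Pool.Agent.Results.MP_fe3720_an.SliceCriterion
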